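import Pool.Agent.MP_1246c0_nt.H25.SpecU

/-! Sampling: from the samples on which the symbols agree to the full sum. -/

set_option autoImplicit false

namespace Pool.Agent.MP_1246c0_nt.H25

open Finset Function Pool.Agent.MP_1246c0_nt.H12

namespace SMP

variable {k M : ℕ}

theorem sg_add (a b : F2) : sg (a + b) = sg a * sg b := by
  have h : ∀ a : F2, a = 0 ∨ a = 1 := by decide
  have h1 : (1 : F2) + 1 = 0 := by decide
  rcases h a with rfl | rfl <;> rcases h b with rfl | rfl <;> simp [sg, h1]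

theorem abs_sg (a : F2) : |sg a| = 1 := by
  unfold sg
  split_ifs <;> simp

theorem avg {I : Type} [Fintype I] [DecidableEq I] (t : I → Finset ℕ) (o : I) (f : (I → ℕ) → ℝ) :
    ∑ ω ∈ Fintype.piFinset t, ∑ z ∈ t o, f (update ω o z) =
      (t o).card * ∑ ω ∈ Fintype.piFinset t, f ω := by
  have m : ∀ a ∈ Fintype.piFinset t ×ˢ t o,
      (update a.1 o a.2, a.1 o) ∈ Fintype.piFinset t ×ˢ t o := fun a ha => by
    simp only [mem_product, Fintype.mem_piFinset] at ha ⊢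
    refine ⟨fun i => ?_, ha.1 o⟩
    by_cases h : i = o
    · subst h
      simpa using ha.2
    · simpa [update_of_ne h] using ha.1 i
  have : ∑ ω ∈ Fintype.piFinset t, ∑ z ∈ t o, f (update ω o z) =
      ∑ ω ∈ Fintype.piFinset t, ∑ _z ∈ t o, f ω := by
    rw [← sum_product' (f := fun ω z => f (update ω o z)), ← sum_product' (f := fun ω _ => f ω)]
    exact sum_nbij' (fun a => (update a.1 o a.2, a.1 o)) (fun a => (update a.1 o a.2, a.1 o)) m m
      (fun a _ => by simp) (fun a _ => by simp) fun a _ => rfl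
  simp [this, mul_sum]

/-- the samples -/
def Om (M : ℕ) (A : Fin k → Finset ℕ) : Finset (Fin k × Option (Fin M) → ℕ) :=
  Fintype.piFinset fun o => A o.1

theorem card_Om (M : ℕ) (A : Fin k → Finset ℕ) :
    ((Om M A).card : ℝ) = (∏ s, ((A s).card : ℝ)) ^ (M + 1) := by
  rw [Om, Fintype.card_piFinset, Fintype.prod_prod_type, ← prod_pow]
  simp

/-- the point of a sample -/
def pk (x : Fin k → Fin M) (ω : Fin k × Option (Fin M) → ℕ) : Fin k → ℕ :=
  fun s => ω (s, some (x s))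

/-- changing the point of a sample -/
def put (x : Fin k → Fin M) (ω : Fin k × Option (Fin M) → ℕ) (z : Fin k → ℕ) :
    Fin k × Option (Fin M) → ℕ := fun o => if o.2 = some (x o.1) then z o.1 else ω o

theorem main (A : Fin k → Finset ℕ) (hP : 0 < ∏ s, ((A s).card : ℝ)) (x : Fin k → Fin M)
    (H : (Fin k → ℕ) → ℝ) : ∑ ω ∈ Om M A, H (pk x ω) =
      (∏ s, ((A s).card : ℝ)) ^ M * ∑ z ∈ Fintype.piFinset A, H z := by
  have m : ∀ a ∈ Om M A ×ˢ Fintype.piFinset A,
      (put x a.1 a.2, pk x a.1) ∈ Om M A ×ˢ Fintype.piFinset A := fun a ha => by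
    simp only [Om, mem_product, Fintype.mem_piFinset] at ha ⊢
    refine ⟨fun o => ?_, fun s => ha.1 (s, some (x s))⟩
    unfold put
    split_ifs
    exacts [ha.2 _, ha.1 o]
  have i : ∀ a : (Fin k × Option (Fin M) → ℕ) × (Fin k → ℕ),
      (put x (put x a.1 a.2) (pk x a.1), pk x (put x a.1 a.2)) = a := fun a => by
    refine Prod.ext (funext fun o => ?_) (funext fun s => by simp [pk, put])
    by_cases h : o.2 = some (x o.1)
    · simp [put, pk, ← h]
    · simp only [put, if_neg h]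
  have : ∑ ω ∈ Om M A, ∑ _z ∈ Fintype.piFinset A, H (pk x ω) =
      ∑ _ω ∈ Om M A, ∑ z ∈ Fintype.piFinset A, H z := by
    rw [← sum_product' (f := fun ω _ => H (pk x ω)), ← sum_product' (f := fun _ z => H z)]
    exact sum_nbij' (fun a => (put x a.1 a.2, pk x a.1)) (fun a => (put x a.1 a.2, pk x a.1)) m m
      (fun a _ => i a) (fun a _ => i a) fun a _ => rfl
  simp only [sum_const, nsmul_eq_mul, card_Om, ← mul_sum, Fintype.card_piFinset,
    Nat.cast_prod] at this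
  refine mul_left_cancel₀ hP.ne' ?_
  rw [this]
  ring

theorem frz {A : Fin k → Finset ℕ} {U : Fin k → ℝ} (hU : ∀ s, ((A s).card : ℝ) ≤ U s)
    (hP : 0 < ∏ s, ((A s).card : ℝ)) (o : Fin k × Option (Fin M))
    (f : (Fin k × Option (Fin M) → ℕ) → ℝ) {B : ℝ} (hB : 0 ≤ B)
    (h : ∀ ω, |∑ z ∈ A o.1, f (update ω o z)| ≤ U o.1 * B) :
    |∑ ω ∈ Om M A, f ω| ≤ (∏ s, ((A s).card : ℝ)) ^ M * (∏ s, U s) * B := by
  have ha : (0 : ℝ) < (A o.1).card := by
    refine lt_of_le_of_ne (Nat.cast_nonneg _) fun e => hP.ne' ?_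
    exact prod_eq_zero (mem_univ o.1) e.symm
  have h1 : ((A o.1).card : ℝ) * |∑ ω ∈ Om M A, f ω| ≤
      (∏ s, ((A s).card : ℝ)) ^ (M + 1) * (U o.1 * B) := by
    rw [← abs_of_pos ha, ← abs_mul, Om, ← avg (fun o : Fin k × Option (Fin M) => A o.1) o f,
      ← card_Om, ← nsmul_eq_mul]
    exact (abs_sum_le_sum_abs _ _).trans (sum_le_card_nsmul _ _ _ fun ω _ => h ω)
  have h2 : (∏ s, ((A s).card : ℝ)) * U o.1 ≤ (A o.1).card * ∏ s, U s := by
    rw [← mul_prod_erase _ _ (mem_univ o.1), ← mul_prod_erase _ U (mem_univ o.1)]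
    have h3 : ∏ s ∈ univ.erase o.1, ((A s).card : ℝ) ≤ ∏ s ∈ univ.erase o.1, U s :=
      prod_le_prod (fun _ _ => Nat.cast_nonneg _) fun s _ => hU s
    have h4 : 0 ≤ U o.1 := ha.le.trans (hU _)
    calc _ = (A o.1).card * (U o.1 * ∏ s ∈ univ.erase o.1, ((A s).card : ℝ)) := by ring
      _ ≤ _ := by gcongr
  refine le_of_mul_le_mul_left (h1.trans ?_) ha
  calc _ = (∏ s, ((A s).card : ℝ)) ^ M * ((∏ s, ((A s).card : ℝ)) * U o.1) * B := by ring
    _ ≤ (∏ s, ((A s).card : ℝ)) ^ M * ((A o.1).card * ∏ s, U s) * B := by gcongr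
    _ = _ := by ring

/-- the signs -/
def e (χ : ℕ → ℕ → F2) (ω : Fin k × Option (Fin M) → ℕ) (p : ℕ) (i : Fin k × Fin M) : ℝ :=
  sg (χ (ω (i.1, none)) p) * sg (χ (ω (i.1, some i.2)) p)

theorem abs_e (χ : ℕ → ℕ → F2) (ω : Fin k × Option (Fin M) → ℕ) (p : ℕ)
    (T : Finset (Fin k × Fin M)) : |∏ i ∈ T, e χ ω p i| = 1 := by
  simp [abs_prod, e, abs_mul, abs_sg]

theorem pick (χ : ℕ → ℕ → F2) (x : Fin k → Fin M) {T : Finset (Fin k × Fin M)}
    (hT : T.Nonempty) : ∃ (o : Fin k × Option (Fin M)) (r : (Fin k × Option (Fin M) → ℕ) → ℕ → ℝ),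
      (∀ ω z, pk x (update ω o z) = pk x ω) ∧ (∀ ω p, |r ω p| = 1) ∧
      ∀ ω z p, ∏ i ∈ T, e χ (update ω o z) p i = sg (χ z p) * r ω p := by
  by_cases h : ∀ i ∈ T, i.2 = x i.1
  · obtain ⟨i, hi⟩ := hT
    refine ⟨(i.1, none), fun ω p => sg (χ (ω (i.1, some i.2)) p) * ∏ j ∈ T.erase i, e χ ω p j,
      fun ω z => funext fun s => by simp [pk], fun ω p => by simp [abs_mul, abs_sg, abs_e],
      fun ω z p => ?_⟩
    rw [← mul_prod_erase _ _ hi, ← mul_assoc]
    congr 1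
    · simp [e]
    · refine prod_congr rfl fun j hj => ?_
      rw [mem_erase] at hj
      have : j.1 ≠ i.1 := fun q => hj.1 (Prod.ext q (by rw [h j hj.2, h i hi, q]))
      simp [e, this]
  · push Not at h
    obtain ⟨i, hi, h⟩ := h
    refine ⟨(i.1, some i.2), fun ω p => sg (χ (ω (i.1, none)) p) * ∏ j ∈ T.erase i, e χ ω p j,
      fun ω z => funext fun s => ?_, fun ω p => by simp [abs_mul, abs_sg, abs_e], fun ω z p => ?_⟩
    · refine update_of_ne (fun q => ?_) _ _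
      simp only [Prod.mk.injEq, Option.some.injEq] at q
      exact h (by rw [← q.2, q.1])
    · rw [← mul_prod_erase _ _ hi, ← mul_assoc]
      congr 1
      · simp [e, mul_comm]
      · refine prod_congr rfl fun j hj => ?_
        rw [mem_erase] at hj
        have : (j.1, some j.2) ≠ (i.1, some i.2) := fun q => by
          simp only [Prod.mk.injEq, Option.some.injEq] at q
          exact hj.1 (Prod.ext q.1 q.2)
        simp [e, update_of_ne this]

theorem term {A : Fin k → Finset ℕ} {U : Fin k → ℝ} (hU : ∀ s, ((A s).card : ℝ) ≤ U s)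
    (hP : 0 < ∏ s, ((A s).card : ℝ)) {A' B' : Finset ℕ} {U' V' δ : ℝ} {χ : ℕ → ℕ → F2}
    (hδ : 0 ≤ δ) (hA : (A'.card : ℝ) ≤ U') (hB : (B'.card : ℝ) ≤ V')
    (hb : ∀ (s : Fin k) (u v : ℕ → ℝ), (∀ p, |u p| ≤ 1) → (∀ p, |v p| ≤ 1) →
      |∑ z ∈ A s, ∑ p ∈ A', u z * v p * sg (χ z p)| ≤ δ * U s * U')
    {T : Finset (Fin k × Fin M)} (hT : T.Nonempty) (T' : Finset (Fin k × Fin M))
    (x : Fin k → Fin M) (G : (Fin k → ℕ) → ℕ → ℕ → ℝ) (hG : ∀ z p q, |G z p q| ≤ 1) :
    |∑ ω ∈ Om M A, ∑ p ∈ A', ∑ q ∈ B',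
      (∏ i ∈ T, e χ ω p i) * (∏ i ∈ T', e χ ω q i) * G (pk x ω) p q| ≤
      (∏ s, ((A s).card : ℝ)) ^ M * (∏ s, U s) * (δ * U' * V') := by
  obtain ⟨o, r, h1, h2, h3⟩ := pick χ x hT
  have hU' : 0 ≤ U' := (Nat.cast_nonneg _).trans hA
  have hV' : 0 ≤ V' := (Nat.cast_nonneg _).trans hB
  have hUo : 0 ≤ U o.1 := (Nat.cast_nonneg _).trans (hU _)
  refine frz hU hP o _ (by positivity) fun ω => ?_
  simp only [h1, h3]
  calc _ = |∑ q ∈ B', ∑ z ∈ A o.1, ∑ p ∈ A', (∏ i ∈ T', e χ (update ω o z) q i) *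
        (r ω p * G (pk x ω) p q) * sg (χ z p)| := by
        rw [sum_comm (s := B')]
        refine congrArg _ (sum_congr rfl fun z _ => ?_)
        rw [sum_comm]
        exact sum_congr rfl fun _ _ => sum_congr rfl fun _ _ => by ring
    _ ≤ B'.card • (δ * U o.1 * U') := by
        refine (abs_sum_le_sum_abs _ _).trans (sum_le_card_nsmul _ _ _ fun q _ => ?_)
        refine hb o.1 _ (fun p => r ω p * G (pk x ω) p q) (fun z => (abs_e ..).le) fun p => ?_
        rw [abs_mul, h2, one_mul]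
        exact hG ..
    _ ≤ V' * (δ * U o.1 * U') := by
        rw [nsmul_eq_mul]
        gcongr
    _ = _ := by ring

/-- the symbols agree on the sample -/
abbrev Spl (χ : ℕ → ℕ → F2) (ω : Fin k × Option (Fin M) → ℕ) (p : ℕ) : Prop :=
  ∀ i : Fin k × Fin M, χ (ω (i.1, none)) p + χ (ω (i.1, some i.2)) p = 0

theorem W_eq (χ : ℕ → ℕ → F2) (ω : Fin k × Option (Fin M) → ℕ) (p : ℕ) :
    ∑ T : Finset (Fin k × Fin M), ∏ i ∈ T, e χ ω p i = if Spl χ ω p then 2 ^ (k * M) else 0 := by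
  rw [← powerset_univ, ← prod_one_add]
  split_ifs with h
  · rw [prod_congr rfl (g := fun _ => 2) fun i _ => by
      rw [e, ← sg_add, h i, sg, if_pos rfl, one_add_one_eq_two]]
    simp
  · obtain ⟨i, hi⟩ := not_forall.1 h
    exact prod_eq_zero (mem_univ i) (by rw [e, ← sg_add, sg, if_neg hi, add_neg_cancel])

theorem key {A : Fin k → Finset ℕ} {U : Fin k → ℝ} (hU : ∀ s, ((A s).card : ℝ) ≤ U s)
    (hP : 0 < ∏ s, ((A s).card : ℝ)) {A' B' : Finset ℕ} {U' V' δ : ℝ} {χ : ℕ → ℕ → F2}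
    (hδ : 0 ≤ δ) (hA : (A'.card : ℝ) ≤ U') (hB : (B'.card : ℝ) ≤ V')
    (hb : ∀ (s : Fin k) (u v : ℕ → ℝ), (∀ p, |u p| ≤ 1) → (∀ p, |v p| ≤ 1) →
      |∑ z ∈ A s, ∑ p ∈ A', u z * v p * sg (χ z p)| ≤ δ * U s * U' ∧
      |∑ z ∈ A s, ∑ p ∈ B', u z * v p * sg (χ z p)| ≤ δ * U s * V')
    (x : Fin k → Fin M) (G : (Fin k → ℕ) → ℕ → ℕ → ℝ) (hG : ∀ z p q, |G z p q| ≤ 1) :
    |4 ^ (k * M) * ∑ ω ∈ Om M A, ∑ p ∈ A'.filter (Spl χ ω), ∑ q ∈ B'.filter (Spl χ ω),
      G (pk x ω) p q - (∏ s, ((A s).card : ℝ)) ^ M *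
        ∑ z ∈ Fintype.piFinset A, ∑ p ∈ A', ∑ q ∈ B', G z p q| ≤
      4 ^ (k * M) * ((∏ s, ((A s).card : ℝ)) ^ M * (∏ s, U s) * (δ * U' * V')) := by
  set t : Finset (Fin k × Fin M) × Finset (Fin k × Fin M) → ℝ := fun a =>
    ∑ ω ∈ Om M A, ∑ p ∈ A', ∑ q ∈ B',
      (∏ i ∈ a.1, e χ ω p i) * (∏ i ∈ a.2, e χ ω q i) * G (pk x ω) p q with ht
  have h4 : (4 : ℝ) ^ (k * M) = 2 ^ (k * M) * 2 ^ (k * M) := by
    rw [← mul_pow]
    norm_num
  have h1 : 4 ^ (k * M) * ∑ ω ∈ Om M A, ∑ p ∈ A'.filter (Spl χ ω), ∑ q ∈ B'.filter (Spl χ ω),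
      G (pk x ω) p q = ∑ a, t a := by
    rw [ht, sum_comm (s := univ), mul_sum]
    refine sum_congr rfl fun ω _ => ?_
    rw [sum_comm (s := univ), sum_filter, mul_sum]
    refine sum_congr rfl fun p _ => ?_
    rw [sum_comm (s := univ), sum_filter]
    have : ∀ q, ∑ a : Finset (Fin k × Fin M) × Finset (Fin k × Fin M),
        (∏ i ∈ a.1, e χ ω p i) * (∏ i ∈ a.2, e χ ω q i) * G (pk x ω) p q =
        (if Spl χ ω p then 2 ^ (k * M) else 0) * (if Spl χ ω q then 2 ^ (k * M) else 0) *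
          G (pk x ω) p q := fun q => by
      rw [← sum_mul, ← W_eq, ← W_eq, sum_mul_sum, Fintype.sum_prod_type]
    simp only [this]
    split_ifs
    · rw [mul_sum]
      refine sum_congr rfl fun q _ => ?_
      split_ifs
      · rw [h4]
      · simp
    · simp
  have h2 : t (∅, ∅) = (∏ s, ((A s).card : ℝ)) ^ M *
      ∑ z ∈ Fintype.piFinset A, ∑ p ∈ A', ∑ q ∈ B', G z p q := by
    rw [← main A hP x fun z => ∑ p ∈ A', ∑ q ∈ B', G z p q]
    simp [ht]
  have hU' : 0 ≤ U' := (Nat.cast_nonneg _).trans hA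
  have hV' : 0 ≤ V' := (Nat.cast_nonneg _).trans hB
  have hU0 : 0 ≤ ∏ s, U s := prod_nonneg fun s _ => (Nat.cast_nonneg _).trans (hU s)
  rw [h1, ← h2, ← add_sum_erase _ _ (mem_univ (∅, ∅)), add_sub_cancel_left]
  refine (abs_sum_le_sum_abs _ _).trans ((sum_le_card_nsmul _ _
    ((∏ s, ((A s).card : ℝ)) ^ M * (∏ s, U s) * (δ * U' * V')) fun a ha => ?_).trans ?_)
  · rcases a.1.eq_empty_or_nonempty with e1 | e1
    · have e2 : a.2.Nonempty :=
        nonempty_iff_ne_empty.2 fun e2 => (mem_erase.1 ha).1 (Prod.ext e1 e2)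
      have := term hU hP hδ hB hA (fun s u v hu hv => (hb s u v hu hv).2) e2 a.1 x
        (fun z q p => G z p q) fun _ _ _ => hG ..
      rw [mul_right_comm δ]
      refine le_of_eq_of_le (congrArg _ (sum_congr rfl fun ω _ => ?_)) this
      rw [sum_comm]
      exact sum_congr rfl fun _ _ => sum_congr rfl fun _ _ => by ring
    · exact term hU hP hδ hA hB (fun s u v hu hv => (hb s u v hu hv).1) e1 a.2 x G hG
  · rw [nsmul_eq_mul]
    refine mul_le_mul_of_nonneg_right ((Nat.cast_le.2 (card_le_univ _)).trans_eq ?_)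
      (mul_nonneg (mul_nonneg (pow_nonneg hP.le _) hU0) (mul_nonneg (mul_nonneg hδ hU') hV'))
    simp [h4]

/-- coincidences -/
abbrev Bad (ω : Fin k × Option (Fin M) → ℕ) : Prop := ∃ o o', o ≠ o' ∧ ω o = ω o'

theorem bad {A : Fin k → Finset ℕ} {U : Fin k → ℝ} {δ : ℝ} (hδ : 0 ≤ δ)
    (hU : ∀ s, ((A s).card : ℝ) ≤ U s ∧ 1 ≤ δ * U s) (hP : 0 < ∏ s, ((A s).card : ℝ)) :
    ∑ ω ∈ Om M A, (if Bad ω then (1 : ℝ) else 0) ≤
      (k * (M + 1)) ^ 2 * ((∏ s, ((A s).card : ℝ)) ^ M * (∏ s, U s) * δ) := by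
  have hU0 : 0 ≤ ∏ s, U s := prod_nonneg fun s _ => (Nat.cast_nonneg _).trans (hU s).1
  calc _ ≤ ∑ ω ∈ Om M A, ∑ a : (Fin k × Option (Fin M)) × (Fin k × Option (Fin M)),
        (if a.1 ≠ a.2 ∧ ω a.1 = ω a.2 then (1 : ℝ) else 0) := by
        refine sum_le_sum fun ω _ => ?_
        split_ifs with h
        · obtain ⟨o, o', h⟩ := h
          refine le_trans (le_of_eq (if_pos h).symm) (single_le_sum (f := fun a :
            (Fin k × Option (Fin M)) × (Fin k × Option (Fin M)) =>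
              if a.1 ≠ a.2 ∧ ω a.1 = ω a.2 then (1 : ℝ) else 0) (fun _ _ => by positivity)
                (mem_univ (o, o')))
        · positivity
    _ ≤ _ := by
        rw [sum_comm]
        refine (sum_le_card_nsmul _ _
          ((∏ s, ((A s).card : ℝ)) ^ M * (∏ s, U s) * δ) fun a _ => ?_).trans_eq (by simp [sq])
        by_cases h : a.1 = a.2
        · simp only [h, ne_eq, not_true, false_and, if_false, sum_const_zero]
          positivity
        · refine (le_abs_self _).trans (frz (fun s => (hU s).1) hP a.1 _ hδ fun ω => ?_)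
          simp only [update_self, update_of_ne (Ne.symm h), ne_eq, h, not_false_eq_true, true_and,
            sum_ite_eq']
          have := (hU a.1.1).2
          split_ifs
          · rwa [abs_one, mul_comm]
          · rw [abs_zero]
            linarith

theorem fin {N m R P Q a b K S T n β η δ U V : ℝ} (hN : 0 ≤ N) (hm : 0 < m) (hR : 0 < R)
    (hP : P ≤ Q) (hQ : 0 ≤ Q) (h0 : 0 ≤ η) (h1 : η ≤ 1) (hδ : 0 ≤ δ) (hU : 0 ≤ U) (hV : 0 ≤ V)
    (hK : 0 ≤ K) (k7 : |N * T - m * (R * S)| ≤ m * (N * (R * Q * (δ * U * V))))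
    (k2 : |N * n - R * (P * (a * b))| ≤ N * (R * Q * (δ * U * V)))
    (k6 : |T| ≤ m * (η * n + R * P * (δ * U * V) + β * (U * V))) (k3 : β ≤ K ^ 2 * (R * Q * δ)) :
    |S| ≤ η * P * a * b + N * (K + 2) ^ 2 * δ * Q * U * V := by
  have a1 : m * (R * |S|) ≤ N * |T| + m * (N * (R * Q * (δ * U * V))) := by
    have := abs_sub_abs_le_abs_sub (m * (R * S)) (N * T)
    rw [abs_sub_comm, abs_mul, abs_mul, abs_mul, abs_of_pos hm, abs_of_pos hR,
      abs_of_nonneg hN] at this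
    linarith
  have a2 : η * (N * n) ≤ η * (R * (P * (a * b))) + N * (R * Q * (δ * U * V)) := by
    have b1 := mul_le_mul_of_nonneg_left (abs_le.1 k2).2 h0
    have b2 := mul_le_of_le_one_left (show 0 ≤ N * (R * Q * (δ * U * V)) by positivity) h1
    linarith
  have a3 : R * P * (δ * U * V) ≤ R * Q * (δ * U * V) := by gcongr
  have a4 : β * (U * V) ≤ K ^ 2 * (R * Q * δ) * (U * V) := by gcongr
  have a5 : N * |T| ≤ N * (m * (η * n + R * Q * (δ * U * V) + K ^ 2 * (R * Q * δ) * (U * V))) :=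
    mul_le_mul_of_nonneg_left (k6.trans (mul_le_mul_of_nonneg_left (by linarith) hm.le)) hN
  have a6 := mul_le_mul_of_nonneg_left a2 hm.le
  have a7 : 0 ≤ m * (N * (R * Q * (δ * U * V))) * (4 * K + 1) := by positivity
  refine le_of_mul_le_mul_left (le_of_mul_le_mul_left ?_ hm) hR
  linarith

end SMP

open SMP in
theorem rowSMP : SSMP := by
  intro k M A A' B' U U' V' η δ χ F hM h0 h1 hδ hU hA hB hF hb hs
  have hU' : 0 ≤ U' := (Nat.cast_nonneg _).trans hA
  have hV' : 0 ≤ V' := (Nat.cast_nonneg _).trans hB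
  have hU0 : 0 ≤ ∏ s, U s := prod_nonneg fun s _ => (Nat.cast_nonneg _).trans (hU s).1
  rcases (prod_nonneg fun s _ => (Nat.cast_nonneg (A s).card : (0 : ℝ) ≤ _) :
    0 ≤ ∏ s, ((A s).card : ℝ)).eq_or_lt with hP | hP
  · have : Fintype.piFinset A = ∅ := by
      rw [← card_eq_zero, Fintype.card_piFinset]
      exact_mod_cast hP.symm
    rw [this, sum_empty, abs_zero, ← hP]
    generalize ∏ s, U s = Q at hU0
    positivity
  have k1 := fun x : Fin k → Fin M => key (fun s => (hU s).1) hP hδ hA hB hb x F hF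
  have k2 := key (fun s => (hU s).1) hP hδ hA hB hb (fun _ => (⟨0, hM⟩ : Fin M))
    (fun _ _ _ => 1) fun _ _ _ => by simp
  have k3 := bad (M := M) hδ hU hP
  have k4 : (∏ s, ((A s).card : ℝ)) ≤ ∏ s, U s :=
    prod_le_prod (fun _ _ => Nat.cast_nonneg _) fun s _ => (hU s).1
  have k5 : ∀ ω ∈ Om M A, |∑ x : Fin k → Fin M, ∑ p ∈ A'.filter (Spl χ ω),
      ∑ q ∈ B'.filter (Spl χ ω), F (pk x ω) p q| ≤ M ^ k * (η * ∑ p ∈ A'.filter (Spl χ ω),
      ∑ q ∈ B'.filter (Spl χ ω), (1 : ℝ) + δ * U' * V' + (if Bad ω then 1 else 0) * (U' * V')) := by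
    intro ω hω
    split_ifs with h
    · refine (abs_sum_le_sum_abs _ _).trans ((sum_le_card_nsmul _ _ (U' * V')
        fun x _ => ?_).trans ?_)
      · refine (abs_sum_le_sum_abs _ _).trans ((sum_le_card_nsmul _ _ V' fun p _ => ?_).trans ?_)
        · refine (abs_sum_le_sum_abs _ _).trans ((sum_le_card_nsmul _ _ 1 fun q _ => hF ..).trans ?_)
          rw [nsmul_one]
          exact (Nat.cast_le.2 (card_filter_le _ _)).trans hB
        · rw [nsmul_eq_mul]
          gcongr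
          exact (Nat.cast_le.2 (card_filter_le _ _)).trans hA
      · simp only [card_univ, Fintype.card_pi, Fintype.card_fin, prod_const, nsmul_eq_mul,
          Nat.cast_pow, one_mul]
        gcongr
        exact le_add_of_nonneg_left (by positivity)
    · have hi : ∀ o o', ω o = ω o' → o = o' := fun o o' e => by
        by_contra q
        exact h ⟨o, o', q, e⟩
      have := hs (fun s => ω (s, none)) (fun i => ω (i.1, some i.2))
        (fun s => Fintype.mem_piFinset.1 hω (s, none))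
        (fun i => Fintype.mem_piFinset.1 hω (i.1, some i.2))
        (fun i j e => by
          have := hi _ _ e
          simp only [Prod.mk.injEq, Option.some.injEq] at this
          exact Prod.ext this.1 this.2)
        (fun i s e => by simpa using hi _ _ e)
      rw [sum_comm, sum_congr rfl fun p _ => sum_comm]
      simp only [sum_const, nsmul_eq_mul, mul_one, zero_mul, add_zero, ← mul_assoc η]
      exact this
  have k6 := (abs_sum_le_sum_abs _ _).trans (sum_le_sum k5)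
  have k7 := (abs_sum_le_sum_abs _ _).trans (sum_le_card_nsmul univ _ _ fun x _ => k1 x)
  rw [sum_sub_distrib, ← mul_sum, sum_comm] at k7
  rw [← mul_sum, sum_add_distrib, ← sum_mul, sum_add_distrib, ← mul_sum, sum_const,
    nsmul_eq_mul, card_Om, pow_succ] at k6
  simp only [sum_const (s := Fintype.piFinset A), sum_const (s := A'), sum_const (s := B'),
    sum_const (s := univ), card_univ, Fintype.card_pi, Fintype.card_fin, prod_const,
    nsmul_eq_mul, Nat.cast_pow, Fintype.card_piFinset, Nat.cast_prod, mul_one] at k2 k7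
  exact fin (by positivity) (by positivity) (pow_pos hP M) k4 hU0 h0 h1 hδ hU' hV' (by positivity)
    k7 k2 k6 k3

end Pool.Agent.MP_1246c0_nt.H25
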