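import Pool.Agent.MP_1246c0_nt.H25.SpecA
import Pool.Agent.MP_db5b97_nt.H85.NT

/-! Units outside a finite set modulo squares. -/

set_option autoImplicit false

namespace Pool.Agent.MP_1246c0_nt.H25

open NumberField IsDedekindDomain Pool.Agent.MP_db5b97_nt.H85
open Pool.Agent.MP_1246c0_nt.H12

namespace YB2

section
variable {A M : Type} [AddCommGroup A] [AddCommGroup M]

theorem mem_Db {U : AddSubgroup A} {x : A} : x ∈ Db U ↔ ∃ y ∈ U, 2 • y = x := Iff.rfl

theorem Db_le (U : AddSubgroup A) : Db U ≤ U := fun _ ⟨_, hy, e⟩ => e ▸ U.nsmul_mem hy 2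

theorem map_Db (U : AddSubgroup A) (φ : A →+ M) : (Db U).map φ = Db (U.map φ) := by
  ext x
  constructor
  · rintro ⟨_, ⟨y, hy, rfl⟩, rfl⟩
    exact ⟨φ y, ⟨y, hy, rfl⟩, (map_nsmul φ 2 y).symm⟩
  · rintro ⟨_, ⟨y, hy, rfl⟩, rfl⟩
    exact ⟨2 • y, ⟨y, hy, rfl⟩, map_nsmul φ 2 y⟩

theorem step (U : AddSubgroup A) (φ : A →+ M) (h : ∀ x : M, 2 • x = 0 → x = 0) :
    (Db U).relIndex U =
      (Db (U ⊓ φ.ker)).relIndex (U ⊓ φ.ker) * (Db (U.map φ)).relIndex (U.map φ) := by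
  have h1 : Db U ⊓ (U ⊓ φ.ker) = Db (U ⊓ φ.ker) := by
    refine le_antisymm ?_ (le_inf (AddSubgroup.map_mono inf_le_left) (Db_le _))
    rintro _ ⟨⟨y, hy, rfl⟩, -, e⟩
    exact ⟨y, ⟨hy, h _ ((map_nsmul φ 2 y).symm.trans e)⟩, rfl⟩
  have h2 : (Db (U.map φ)).comap φ ⊓ U = Db U ⊔ U ⊓ φ.ker := by
    refine le_antisymm ?_ (sup_le (le_inf ?_ (Db_le U)) (le_inf ?_ inf_le_left))
    · rintro x ⟨⟨_, ⟨y, hy, rfl⟩, e⟩, hx⟩
      refine AddSubgroup.mem_sup.2 ⟨2 • y, ⟨y, hy, rfl⟩, x - 2 • y,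
        ⟨U.sub_mem hx (U.nsmul_mem hy 2), ?_⟩, add_sub_cancel _ _⟩
      change φ _ = 0
      rw [map_sub, map_nsmul, sub_eq_zero]
      exact e.symm
    · rw [← map_Db]
      exact AddSubgroup.le_comap_map _ _
    · rintro x ⟨-, e⟩
      change φ x ∈ Db _
      rw [show φ x = 0 from e]
      exact zero_mem _
  rw [← h1, AddSubgroup.inf_relIndex_right, ← AddSubgroup.relIndex_comap,
    ← AddSubgroup.inf_relIndex_right (AddSubgroup.comap _ _), h2,
    ← AddSubgroup.relIndex_sup_left (U ⊓ φ.ker) (Db U),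
    AddSubgroup.relIndex_mul_relIndex _ _ _ le_sup_left (sup_le (Db_le U) inf_le_left)]

theorem free [Module.Free ℤ M] [Module.Finite ℤ M] (U : AddSubgroup M) [U.FiniteIndex] :
    (Db U).relIndex U = 2 ^ Module.finrank ℤ M := by
  rw [← AddSubgroup.finrank_eq_of_finiteIndex U]
  exact AddSubgroup.relIndex_map_nsmul 2 U

theorem fi [Module.Free ℤ M] [Module.Finite ℤ M] (U : AddSubgroup M) {h : ℕ} (h0 : h ≠ 0)
    (hU : ∀ v, h • v ∈ U) : U.FiniteIndex := by
  have : (nsmulAddMonoidHom (α := M) h).range.FiniteIndex :=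
    ⟨by rw [AddSubgroup.index_range_nsmul]; exact pow_ne_zero _ h0⟩
  refine AddSubgroup.finiteIndex_of_le (H := (nsmulAddMonoidHom h).range) ?_
  rintro _ ⟨v, rfl⟩
  exact hU v

theorem tf [Module.Free ℤ M] (x : M) (h : 2 • x = 0) : x = 0 :=
  AddSubgroup.nsmulAddMonoidHom_injective_of_isTorsionFree (M := M) two_ne_zero
    (h.trans (map_zero _).symm)

end

variable {L : Type} [Field L] [NumberField L]

/-- units of the ring of integers -/
noncomputable def io : Additive (𝓞 L)ˣ →+ Un L :=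
  MonoidHom.toAdditive (Units.map (algebraMap (𝓞 L) L : 𝓞 L →* L))

omit [NumberField L] in
theorem io_val (u : Additive (𝓞 L)ˣ) : (io u).val = ((u.toMul : 𝓞 L) : L) := rfl

omit [NumberField L] in
theorem io_inj : Function.Injective (io (L := L)) := fun _ _ h =>
  Additive.toMul.injective (Units.ext (RingOfIntegers.coe_injective (congrArg Un.val h)))

theorem io_range : (⊤ : AddSubgroup _).map io = Eu L := by
  ext x
  simp only [Eu, AddSubgroup.mem_iInf, AddMonoidHom.mem_ker, ord_eq_zero_iff]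
  constructor
  · rintro ⟨u, -, rfl⟩ w
    rw [io_val, val_eq_one_iff]
    exact fun h => w.isPrime.ne_top (Ideal.eq_top_of_isUnit_mem _ h u.toMul.isUnit)
  · intro h
    obtain ⟨a, ha⟩ := HeightOneSpectrum.mem_integers_of_valuation_le_one (R := 𝓞 L) L x.val
      fun w => (h w).le
    obtain ⟨b, hb⟩ := HeightOneSpectrum.mem_integers_of_valuation_le_one (R := 𝓞 L) L x.val⁻¹
      fun w => by rw [map_inv₀, h w, inv_one]
    have hab : a * b = 1 := by
      apply RingOfIntegers.coe_injective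
      rw [map_mul, ha, hb, map_one, mul_inv_cancel₀ x.val_ne]
    exact ⟨Additive.ofMul ⟨a, b, hab, by rw [mul_comm, hab]⟩, trivial, Un.ext ha⟩

theorem units [IsTotallyReal L] : 2 ^ Module.finrank ℚ L ≤ (Db (Eu L)).relIndex (Eu L) := by
  let φ : Additive (𝓞 L)ˣ →+ Additive ((𝓞 L)ˣ ⧸ Units.torsion L) :=
    MonoidHom.toAdditive (QuotientGroup.mk' _)
  have hs : (⊤ : AddSubgroup (Additive (𝓞 L)ˣ)).map φ = ⊤ := eq_top_iff.2 fun y _ =>
    (QuotientGroup.mk'_surjective (Units.torsion L) y.toMul).elim fun x e =>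
      ⟨Additive.ofMul x, trivial, congrArg Additive.ofMul e⟩
  have mk : ∀ x, x ∈ ⊤ ⊓ φ.ker ↔ x.toMul ∈ Units.torsion L := fun x => by
    rw [top_inf_eq]
    exact QuotientGroup.eq_one_iff x.toMul
  have fin : Finite (⊤ ⊓ φ.ker : AddSubgroup _) := Finite.of_injective
    (fun x => (⟨x.1.toMul, (mk _).1 x.2⟩ : Units.torsion L)) fun x y h =>
      Subtype.ext (Additive.toMul.injective (congrArg (fun z : Units.torsion L => z.1) h))
  have h0 : (Db (⊤ ⊓ φ.ker)).relIndex (⊤ ⊓ φ.ker) ≠ 0 := AddSubgroup.index_ne_zero_of_finite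
  have h1 : (Db (⊤ ⊓ φ.ker)).relIndex (⊤ ⊓ φ.ker) ≠ 1 := fun e => by
    obtain ⟨y, -, hy⟩ := AddSubgroup.relIndex_eq_one.1 e ((mk (Additive.ofMul (-1))).2
      ((CommGroup.mem_torsion _).2 (isOfFinOrder_iff_pow_eq_one.2 ⟨2, two_pos, by simp⟩)))
    have h2 : (io y).val ^ 2 = -1 := by
      rw [← Un.val_nsmul, ← map_nsmul, show 2 • y = _ from hy, io_val]
      simp
    obtain ⟨v⟩ : Nonempty (InfinitePlace L) := inferInstance
    have h3 := congrArg (InfinitePlace.embedding_of_isReal (IsTotallyReal.isReal v)) h2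
    rw [map_pow, map_neg, map_one] at h3
    nlinarith [sq_nonneg (InfinitePlace.embedding_of_isReal (IsTotallyReal.isReal v) (io y).val)]
  have h4 : Module.finrank ℚ L = Units.rank L + 1 := by
    rw [Units.rank, ← Nat.sub_add_comm Fintype.card_pos, IsTotallyReal.finrank,
      InfinitePlace.card_eq_nrRealPlaces_add_nrComplexPlaces,
      IsTotallyReal.nrComplexPlaces_eq_zero, add_zero, Nat.add_sub_cancel]
  rw [← io_range, ← map_Db, AddSubgroup.relIndex_map_map_of_injective _ _ io_inj, 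
    step (M := Additive ((𝓞 L)ˣ ⧸ Units.torsion L)) ⊤ φ tf, hs,
    free (M := Additive ((𝓞 L)ˣ ⧸ Units.torsion L)) ⊤, Units.finrank_modTorsion, h4, pow_succ']
  exact Nat.mul_le_mul_right _ (by omega)

theorem gen : ∃ h : ℕ, h ≠ 0 ∧ ∀ v : Sp L, ∃ x : Un L, ord v x = h ∧ ∀ w, w ≠ v → ord w x = 0 := by
  classical
  obtain ⟨n, n0, hn⟩ : ∃ n : ℕ, n ≠ 0 ∧ ∀ c : ClassGroup (𝓞 L), c ^ n = 1 :=
    ⟨Nat.card _, Nat.card_pos.ne', fun _ => pow_card_eq_one'⟩
  refine ⟨n, n0, fun v => ?_⟩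
  have h0 := pow_ne_zero n v.ne_bot
  have h1 := hn (ClassGroup.mk0 ⟨v.asIdeal, mem_nonZeroDivisors_of_ne_zero v.ne_bot⟩)
  rw [← map_pow] at h1
  obtain ⟨a, ha⟩ := (ClassGroup.mk0_eq_one_iff (mem_nonZeroDivisors_of_ne_zero h0)).1 h1
  have a0 : a ≠ 0 := fun e => h0 (by rw [ha, e]; exact Ideal.span_singleton_eq_bot.2 rfl)
  have key : ∀ w : Sp L, ord w (mkI a a0) = (n * if w = v then 1 else 0 : ℕ) := fun w => by
    rw [ord_mkI, show Ideal.span {a} = _ from ha.symm,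
      (FiniteMultiplicity.of_prime_left w.prime v.ne_bot).multiplicity_pow w.prime, mult_prime]
  exact ⟨mkI a a0, by simp [key], fun w hw => by simp [key, hw]⟩

end YB2

open YB2 in
theorem rowYB2 : SYB2 := by
  classical
  intro L _ _ S hL
  have := Pl_finite (F := L) two_ne_zero
  have := Fintype.ofFinite (Pl L 2)
  let t : S ⊕ Pl L 2 → Sp L := Sum.elim (fun w => w.1.1) fun w => w.1
  have ti : Function.Injective t := by
    rintro (a | a) (b | b) e
    · exact congrArg _ (Subtype.ext (Subtype.ext e))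
    · exact (a.1.2 ((show a.1.1 = b.1 from e) ▸ b.2)).elim
    · exact (b.1.2 ((show a.1 = b.1.1 from e) ▸ a.2)).elim
    · exact congrArg _ (Subtype.ext e)
  let φ : Un L →+ (S ⊕ Pl L 2 → ℤ) := AddMonoidHom.pi fun i => ord (t i)
  have mS : ∀ x, x ∈ Su L S ↔ ∀ w : Pr L 2, w ∉ S → ord w.1 x = 0 := fun x => by
    simp only [Su, AddSubgroup.mem_iInf, AddMonoidHom.mem_ker, Subtype.forall]
  have hk : Su L S ⊓ φ.ker = Eu L := by
    ext x
    simp only [Eu, AddSubgroup.mem_iInf, AddSubgroup.mem_inf, AddMonoidHom.mem_ker, mS]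
    refine ⟨fun h w => ?_, fun h => ⟨fun w _ => h _, funext fun i => h _⟩⟩
    by_cases a : ((2 : ℕ) : 𝓞 L) ∈ w.asIdeal
    · exact congrFun h.2 (Sum.inr ⟨w, a⟩)
    by_cases b : (⟨w, a⟩ : Pr L 2) ∈ S
    · exact congrFun h.2 (Sum.inl ⟨_, b⟩)
    · exact h.1 ⟨w, a⟩ b
  obtain ⟨h, h0, hx⟩ := gen (L := L)
  choose x x1 x2 using hx
  have : ((Su L S).map φ).FiniteIndex := by
    refine fi _ h0 fun v => ?_
    refine ⟨∑ i, v i • x (t i), sum_mem fun i _ => zsmul_mem ((mS _).2 fun w hw => x2 _ _ ?_) _, ?_⟩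
    · rcases i with a | a
      · exact fun e => hw ((Subtype.ext e : w = a.1) ▸ a.2)
      · exact fun e => w.2 ((show w.1 = a.1 from e) ▸ a.2)
    · funext j
      change ord (t j) _ = h • v j
      rw [map_sum, Finset.sum_eq_single j (fun i _ hi => by
        rw [map_zsmul, x2 _ _ (ti.ne hi.symm), smul_zero]) (by simp), map_zsmul, x1]
      simp [mul_comm]
  rw [step _ φ tf, hk, free ((Su L S).map φ), Module.finrank_fintype_fun_eq_card,
    Fintype.card_sum, Fintype.card_coe,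
    Nat.card_eq_fintype_card, pow_add, mul_comm]
  exact Nat.mul_le_mul_right _ units

end Pool.Agent.MP_1246c0_nt.H25
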